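import Mathlib
import Pool.Agent.N675.FM.All
import Pool.Agent.N675.FS.Top
import Pool.Agent.N803.FM.SPL
import Pool.Agent.N622.FM.TR

/-! Project FM: the theorems for the Möbius function. -/

namespace Pool.Agent.N675.FM

open Finset Pool.Agent.N675 Pool.Agent.N675.FS

variable {k n : ℕ}

theorem mob_fm (φ : Fin k → Fin n → ℤ) (b : Fin k → ℤ) (hφ : ∀ j, φ j ≠ 0) (E : Finset (Fin k))
    (hE : GoodE φ b E) (R : ℕ) (ε : ℝ) (hε : 0 < ε) :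
    ∃ C : ℝ, ∀ J : ℕ, ∃ N₀ : ℕ, ∀ N : ℕ, N₀ ≤ N →
      ∑ i ∈ excM φ b E R ε J N, 1 / (i : ℝ) ≤ C :=
  fm Pool.Agent.N803.FM.t_spl Pool.Agent.N622.FM.t_tr
    (fun φ b hφ E hE R ε hε => lam_cor φ b hφ E hE R ε hε) φ b hφ E hE R ε hε

theorem mob_cor (φ : Fin k → Fin n → ℤ) (b : Fin k → ℤ) (hφ : ∀ j, φ j ≠ 0) (e : Fin k → ℕ)
    (hE : GoodE φ b (univ.filter fun j => Odd (e j))) (R : ℕ) (ε : ℝ) (hε : 0 < ε) :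
    ∃ C : ℝ, ∀ J : ℕ, ∃ N₀ : ℕ, ∀ N : ℕ, N₀ ≤ N →
      ∑ i ∈ excMC φ b e R ε J N, 1 / (i : ℝ) ≤ C :=
  fm_cor mob_fm φ b hφ e hE R ε hε

theorem mob_pat (φ : Fin k → Fin n → ℤ) (b : Fin k → ℤ) (hφ : ∀ j, φ j ≠ 0)
    (hE : ∀ E : Finset (Fin k), E.Nonempty → GoodE φ b E) (R : ℕ) (ε : ℝ) (hε : 0 < ε) :
    ∃ C : ℝ, ∀ J : ℕ, ∃ N₀ : ℕ, ∀ N : ℕ, N₀ ≤ N →
      ∑ i ∈ excMP φ b R ε J N, 1 / (i : ℝ) ≤ C :=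
  fm_pat mob_fm φ b hφ hE R ε hε

end Pool.Agent.N675.FM
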